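import Mathlib

/-!
# MP_cdb8a2_al: the symmetric group `S₃` is not the Galois group of any envelope of `ℤ`

A homomorphism `φ : H → G` is an envelope if every homomorphism `H → G` is `f ∘ φ` for an
endomorphism `f` of `G`, and every endomorphism `f` of `G` with `f ∘ φ = φ` is an automorphism.
Its Galois group is the group of all automorphisms `f` of `G` with `f ∘ φ = φ`.

The question is whether for every group `K` there are arbitrarily large envelopes of `ℤ` with
Galois group `K`.  We show that the answer is no: for `K = S₃` there is no envelope of `ℤ` with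
Galois group `K` at all.

Proof.  Let `g = φ(1)`; the Galois group `K` is the stabilizer of `g`.  Conjugation by `g` is a
central element of `K ≅ S₃`, so `g` is central in `G`, and all inner automorphisms of `G` are in
`K`.  If `G` is abelian, then `K = 1 + L`, where `L = {l ∈ End G : l(g) = 0}` has additive group
of order `6`; this is cyclic, so `K` is abelian, a contradiction.  Otherwise `G/Z(G) ≅ S₃`, and
then `G` is the semidirect product of a normal subgroup of order `3` and an abelian subgroup `T`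
containing `Z(G)`; the retraction of `G` onto `T` fixes `g`, but is not injective.
-/

namespace Pool.Agent.Results.MP_cdb8a2_al.NoSymThree

universe u v

/-- `φ : H → G` is an envelope of `H`. -/
def IsEnvelope {H : Type v} {G : Type u} [Group H] [Group G] (φ : H →* G) : Prop :=
  (∀ ψ : H →* G, ∃ f : G →* G, f.comp φ = ψ) ∧
    ∀ f : G →* G, f.comp φ = φ → Function.Bijective f

/-- The Galois group of `φ : H → G`: the automorphisms `f` of `G` with `f ∘ φ = φ`. -/
def Gal {H : Type v} {G : Type u} [Group H] [Group G] (φ : H →* G) : Subgroup (MulAut G) where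
  carrier := {f | ∀ x, f (φ x) = φ x}
  one_mem' := fun x => rfl
  mul_mem' := fun {a b} ha hb x => by
    show (a * b) (φ x) = φ x
    rw [MulAut.mul_apply, hb x, ha x]
  inv_mem' := fun {a} ha x => by
    show a⁻¹ (φ x) = φ x
    rw [MulAut.inv_def, MulEquiv.symm_apply_eq]
    exact (ha x).symm

/-- The case of an abelian group `G`. -/
theorem caseComm {G : Type u} [CommGroup G] (g : G)
    (K : Subgroup (MulAut G)) (hK : ∀ f : MulAut G, f ∈ K ↔ f g = g)
    (hbij : ∀ f : G →* G, f g = g → Function.Bijective f)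
    (hcard : Nat.card K = 6) : ∀ a b : K, a * b = b * a := by
  classical
  -- the additive group of all endomorphisms killing `g`
  let L : Subgroup (G →* G) :=
    { carrier := {l | l g = 1}
      one_mem' := rfl
      mul_mem' := fun {a b} ha hb => by
        show (a * b) g = 1
        rw [MonoidHom.mul_apply, show a g = 1 from ha, show b g = 1 from hb, one_mul]
      inv_mem' := fun {a} ha => by
        show (a⁻¹) g = 1
        rw [MonoidHom.inv_apply, show a g = 1 from ha, inv_one] }
  -- the map `f ↦ f - 1`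
  let e : K → L := fun f => ⟨(f : MulAut G).toMonoidHom * (MonoidHom.id G)⁻¹, by
    show ((f : MulAut G).toMonoidHom * (MonoidHom.id G)⁻¹) g = 1
    rw [MonoidHom.mul_apply, MonoidHom.inv_apply]
    show (f : MulAut G) g * g⁻¹ = 1
    rw [(hK f.1).1 f.2, mul_inv_cancel]⟩
  have he_app : ∀ (f : K) (x : G), (e f : G →* G) x = (f : MulAut G) x * x⁻¹ := fun f x => rfl
  have hinj : Function.Injective e := by
    intro f h hfh
    apply Subtype.ext
    apply MulEquiv.ext
    intro x
    have h1 : (e f : G →* G) x = (e h : G →* G) x := by rw [hfh]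
    rw [he_app, he_app] at h1
    exact mul_right_cancel h1
  have hsurj : Function.Surjective e := by
    intro l
    have h1 : ((l : G →* G) * MonoidHom.id G) g = g := by
      rw [MonoidHom.mul_apply, show (l : G →* G) g = 1 from l.2, one_mul]
      rfl
    have hb := hbij _ h1
    let f : MulAut G := MulEquiv.ofBijective ((l : G →* G) * MonoidHom.id G) hb
    refine ⟨⟨f, (hK f).2 h1⟩, ?_⟩
    apply Subtype.ext
    apply MonoidHom.ext
    intro x
    rw [he_app]
    show ((l : G →* G) x * x) * x⁻¹ = (l : G →* G) x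
    rw [mul_inv_cancel_right]
  have hL : Nat.card L = 6 := by
    rw [← hcard]
    exact (Nat.card_congr (Equiv.ofBijective e ⟨hinj, hsurj⟩)).symm
  have hfin : Finite L := Nat.finite_of_card_ne_zero (by rw [hL]; norm_num)
  have hsq : Squarefree (Nat.card L) := by
    rw [hL]
    decide +kernel
  have hZ : IsZGroup L := IsZGroup.of_squarefree hsq
  have hcyc : IsCyclic L := inferInstance
  obtain ⟨d, hd⟩ := hcyc.exists_generator
  have key : ∀ f : K, ∃ n : ℤ, ∀ x : G, (f : MulAut G) x = ((d : G →* G) x) ^ n * x := by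
    intro f
    obtain ⟨n, hn⟩ := Subgroup.mem_zpowers_iff.1 (hd (e f))
    refine ⟨n, fun x => ?_⟩
    have h1 := he_app f x
    rw [← hn] at h1
    have h2 : ((d ^ n : L) : G →* G) x = ((d : G →* G) x) ^ n := by
      rw [Subgroup.coe_zpow]
      rfl
    rw [h2] at h1
    rw [h1, inv_mul_cancel_right]
  intro a b
  obtain ⟨n, hn⟩ := key a
  obtain ⟨m, hm⟩ := key b
  apply Subtype.ext
  apply MulEquiv.ext
  intro x
  show (a : MulAut G) ((b : MulAut G) x) = (b : MulAut G) ((a : MulAut G) x)
  rw [hn, hm, hm ((a : MulAut G) x), hn x]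
  simp only [map_mul, map_zpow, mul_zpow, ← zpow_mul]
  rw [mul_comm n m]
  rw [mul_assoc, mul_assoc, mul_left_comm (((d : G →* G) x) ^ n)]

/-- A group `G` with `G/Z(G) ≅ S₃` has a non-injective endomorphism that is the identity on the
centre. -/
theorem caseSym {G : Type u} [Group G] (i : G →* Equiv.Perm (Fin 3))
    (hker : ∀ x : G, i x = 1 ↔ ∀ y : G, x * y = y * x) (hsurj : Function.Surjective i) :
    ∃ r : G →* G, (∀ z : G, i z = 1 → r z = z) ∧ ¬ Function.Injective r := by
  classical
  obtain ⟨c0, hc0⟩ := hsurj (finRotate 3)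
  obtain ⟨t, ht⟩ := hsurj (Equiv.swap 0 1)
  -- `z = t c₀ t⁻¹ c₀` is central, and so are `w = c₀³` and `t²`
  have hz : ∀ y : G, (t * c0 * t⁻¹ * c0) * y = y * (t * c0 * t⁻¹ * c0) := by
    rw [← hker]
    rw [map_mul, map_mul, map_mul, map_inv, hc0, ht]
    decide
  have hw : ∀ y : G, (c0 ^ 3) * y = y * c0 ^ 3 := by
    rw [← hker, map_pow, hc0]
    decide
  obtain ⟨z, hzdef⟩ : ∃ z, z = t * c0 * t⁻¹ * c0 := ⟨_, rfl⟩
  rw [← hzdef] at hz
  have htc0 : t * c0 * t⁻¹ = z * c0⁻¹ := by rw [hzdef]; group
  have hzc : Commute z c0⁻¹ := hz _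
  have hz3 : z ^ 3 = c0 ^ 6 := by
    have h1 : (t * c0 * t⁻¹) ^ 3 = c0 ^ 3 := by
      rw [conj_pow, ← hw t, mul_inv_cancel_right]
    rw [htc0, hzc.mul_pow] at h1
    rw [inv_pow, mul_inv_eq_iff_eq_mul] at h1
    rw [h1, ← pow_add]
  let c : G := z * (c0 ^ 2)⁻¹
  have hic : i c = finRotate 3 := by
    show i (z * (c0 ^ 2)⁻¹) = _
    rw [map_mul, map_inv, map_pow, hc0, (hker z).2 hz]
    decide
  have hc3 : c ^ 3 = 1 := by
    show (z * (c0 ^ 2)⁻¹) ^ 3 = 1
    have h1 : Commute z (c0 ^ 2)⁻¹ := hz _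
    rw [h1.mul_pow, hz3]
    group
  have htc : t * c * t⁻¹ = c⁻¹ := by
    show t * (z * (c0 ^ 2)⁻¹) * t⁻¹ = (z * (c0 ^ 2)⁻¹)⁻¹
    have h1 : t * (z * (c0 ^ 2)⁻¹) * t⁻¹ = z * ((t * c0 * t⁻¹) ^ 2)⁻¹ := by
      have h2 : z * t = t * z := hz t
      rw [conj_pow, ← mul_assoc t, ← h2]
      group
    rw [h1, htc0, hzc.mul_pow, mul_inv_rev, inv_pow, inv_inv, mul_inv_rev, inv_inv, ← mul_assoc,
      hz (c0 ^ 2), mul_assoc]
    congr 1
    group
  -- `N = ⟨c⟩` is normal
  have hdec : ∀ p : Equiv.Perm (Fin 3), p = 1 ∨ p = finRotate 3 ∨ p = finRotate 3 ^ 2 ∨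
      p = Equiv.swap 0 1 ∨ p = finRotate 3 * Equiv.swap 0 1 ∨
      p = finRotate 3 ^ 2 * Equiv.swap 0 1 := by decide
  -- every element is `c ^ k * s` with `s` central or `t⁻¹ * s` central
  let T : Subgroup G := (Subgroup.zpowers (Equiv.swap (0 : Fin 3) 1)).comap i
  have hT : ∀ y : G, y ∈ T ↔ i y = 1 ∨ i y = Equiv.swap 0 1 := by
    intro y
    show i y ∈ Subgroup.zpowers (Equiv.swap (0 : Fin 3) 1) ↔ _
    constructor
    · intro h
      obtain ⟨k, hk⟩ := Subgroup.mem_zpowers_iff.1 h
      rcases Int.even_or_odd k with ⟨m, hm⟩ | ⟨m, hm⟩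
      · left
        rw [← hk, hm, ← two_mul, zpow_mul]
        have : (Equiv.swap (0 : Fin 3) 1) ^ (2 : ℤ) = 1 := by decide
        rw [this, one_zpow]
      · right
        rw [← hk, hm, zpow_add, zpow_mul]
        have : (Equiv.swap (0 : Fin 3) 1) ^ (2 : ℤ) = 1 := by decide
        rw [this, one_zpow, one_mul, zpow_one]
    · rintro (h | h)
      · rw [h]; exact Subgroup.one_mem _
      · rw [h]; exact Subgroup.mem_zpowers _
  have hdecomp : ∀ x : G, ∃ k : ℕ, ∃ y ∈ T, x = c ^ k * y := by
    intro x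
    have hx : ∃ k : ℕ, i ((c ^ k)⁻¹ * x) = 1 ∨ i ((c ^ k)⁻¹ * x) = Equiv.swap 0 1 := by
      simp only [map_mul, map_inv, map_pow, hic]
      rcases hdec (i x) with h | h | h | h | h | h
      · exact ⟨0, Or.inl (by rw [h]; decide)⟩
      · exact ⟨1, Or.inl (by rw [h]; decide)⟩
      · exact ⟨2, Or.inl (by rw [h]; decide)⟩
      · exact ⟨0, Or.inr (by rw [h]; decide)⟩
      · exact ⟨1, Or.inr (by rw [h]; decide)⟩
      · exact ⟨2, Or.inr (by rw [h]; decide)⟩
    obtain ⟨k, hk⟩ := hx
    exact ⟨k, (c ^ k)⁻¹ * x, (hT _).2 hk, by group⟩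
  have hconjT : ∀ y ∈ T, y * c * y⁻¹ ∈ Subgroup.zpowers c := by
    intro y hy
    rcases (hT y).1 hy with h | h
    · rw [(hker y).1 h c, mul_inv_cancel_right]
      exact Subgroup.mem_zpowers c
    · have h1 : i (t⁻¹ * y) = 1 := by rw [map_mul, map_inv, ht, h, inv_mul_cancel]
      obtain ⟨s, hs⟩ : ∃ s, s = t⁻¹ * y := ⟨_, rfl⟩
      rw [← hs] at h1
      have hy' : y = t * s := by rw [hs]; group
      have h2 : y * c * y⁻¹ = t * (s * c * s⁻¹) * t⁻¹ := by rw [hy']; group
      rw [h2, (hker s).1 h1 c, mul_inv_cancel_right, htc]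
      exact Subgroup.inv_mem _ (Subgroup.mem_zpowers c)
  have hN : (Subgroup.zpowers c).Normal := by
    constructor
    intro n hn x
    obtain ⟨k, rfl⟩ := Subgroup.mem_zpowers_iff.1 hn
    obtain ⟨j, y, hy, rfl⟩ := hdecomp x
    have h1 : c ^ j * y * c ^ k * (c ^ j * y)⁻¹ = c ^ j * (y * c * y⁻¹) ^ k * (c ^ j)⁻¹ := by
      rw [conj_zpow]
      group
    rw [h1]
    refine Subgroup.mul_mem _ (Subgroup.mul_mem _ ?_ ?_) (Subgroup.inv_mem _ ?_)
    · exact Subgroup.pow_mem _ (Subgroup.mem_zpowers c) _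
    · exact Subgroup.zpow_mem _ (hconjT y hy) _
    · exact Subgroup.pow_mem _ (Subgroup.mem_zpowers c) _
  -- the projection `T → G / N` is bijective
  let q : G →* G ⧸ Subgroup.zpowers c := QuotientGroup.mk' _
  let qT : T →* G ⧸ Subgroup.zpowers c := q.comp T.subtype
  have hqc : q c = 1 := (QuotientGroup.eq_one_iff c).2 (Subgroup.mem_zpowers c)
  have hqinj : Function.Injective qT := by
    rw [injective_iff_map_eq_one]
    intro y hy
    have h1 : (y : G) ∈ Subgroup.zpowers c := (QuotientGroup.eq_one_iff (y : G)).1 hy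
    obtain ⟨k, hk⟩ := Subgroup.mem_zpowers_iff.1 h1
    have h3 : ∃ j : Fin 3, c ^ k = c ^ (j : ℕ) := by
      have hk3 : 0 ≤ k % 3 := Int.emod_nonneg _ (by norm_num)
      have hk3' : k % 3 < 3 := Int.emod_lt_of_pos _ (by norm_num)
      refine ⟨⟨(k % 3).toNat, by omega⟩, ?_⟩
      have hz' : c ^ (3 : ℤ) = 1 := by exact_mod_cast hc3
      conv_lhs => rw [← Int.mul_ediv_add_emod k 3, zpow_add, zpow_mul, hz', one_zpow, one_mul]
      rw [← zpow_natCast]
      congr 1
      show k % 3 = ((k % 3).toNat : ℤ)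
      omega
    obtain ⟨j, hj⟩ := h3
    have hyT := (hT _).1 y.2
    rw [← hk, hj, map_pow, hic] at hyT
    have hfin : ∀ j : Fin 3, (finRotate 3 ^ (j : ℕ) = 1 ∨
        finRotate 3 ^ (j : ℕ) = Equiv.swap 0 1) → j = 0 := by decide
    have hj0 : j = 0 := hfin j hyT
    apply Subtype.ext
    rw [← hk, hj, hj0]
    show c ^ 0 = 1
    exact pow_zero c
  have hqsurj : Function.Surjective qT := by
    intro a
    obtain ⟨x, rfl⟩ := QuotientGroup.mk'_surjective _ a
    obtain ⟨k, y, hy, rfl⟩ := hdecomp x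
    refine ⟨⟨y, hy⟩, ?_⟩
    show q y = q (c ^ k * y)
    rw [map_mul, map_pow, hqc, one_pow, one_mul]
  let E : T ≃* G ⧸ Subgroup.zpowers c := MulEquiv.ofBijective qT ⟨hqinj, hqsurj⟩
  refine ⟨(T.subtype.comp E.symm.toMonoidHom).comp q, ?_, ?_⟩
  · intro y hy
    have hyT : y ∈ T := (hT y).2 (Or.inl hy)
    show ((E.symm (q y) : T) : G) = y
    have h1 : E ⟨y, hyT⟩ = q y := rfl
    rw [← h1, MulEquiv.symm_apply_apply]
  · intro hinj
    have h1 : c = 1 := by
      apply hinj
      show ((E.symm (q c) : T) : G) = ((E.symm (q 1) : T) : G)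
      rw [hqc, map_one q]
    have h2 : i c = 1 := by rw [h1, map_one]
    rw [hic] at h2
    exact absurd h2 (by decide)

theorem permThree_centre : ∀ p : Equiv.Perm (Fin 3),
    (∀ q : Equiv.Perm (Fin 3), p * q = q * p) → p = 1 := by decide

/-- The stabilizer of an element of a group cannot be `S₃` if every endomorphism fixing the
element is bijective. -/
theorem main {G : Type u} [Group G] (g : G) (K : Subgroup (MulAut G))
    (hK : ∀ f : MulAut G, f ∈ K ↔ f g = g)
    (hbij : ∀ f : G →* G, f g = g → Function.Bijective f)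
    (e : K ≃* Equiv.Perm (Fin 3)) : False := by
  classical
  -- conjugation by `g` is in the centre of `K`
  have hg : ∀ x : G, g * x = x * g := by
    have hmem : MulAut.conj g ∈ K := by
      rw [hK, MulAut.conj_apply, mul_inv_cancel_right]
    let s : K := ⟨MulAut.conj g, hmem⟩
    have hs : e s = 1 := by
      apply permThree_centre
      intro p
      obtain ⟨f, rfl⟩ := e.surjective p
      rw [← map_mul, ← map_mul]
      congr 1
      apply Subtype.ext
      apply MulEquiv.ext
      intro x
      show g * (f : MulAut G) x * g⁻¹ = (f : MulAut G) (g * x * g⁻¹)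
      rw [map_mul, map_mul, map_inv, (hK f.1).1 f.2]
    have hs1 : s = 1 := by
      apply e.injective
      rw [hs, map_one]
    intro x
    have h1 : (s : MulAut G) x = x := by rw [hs1]; rfl
    have h2 : g * x * g⁻¹ = x := h1
    exact mul_inv_eq_iff_eq_mul.1 h2
  -- all inner automorphisms are in `K`
  have hconj : ∀ x : G, MulAut.conj x ∈ K := by
    intro x
    rw [hK, MulAut.conj_apply, ← hg x, mul_inv_cancel_right]
  let i : G →* Equiv.Perm (Fin 3) := e.toMonoidHom.comp (MulAut.conj.codRestrict K hconj)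
  have hker : ∀ x : G, i x = 1 ↔ ∀ y : G, x * y = y * x := by
    intro x
    have h0 : i x = e ⟨MulAut.conj x, hconj x⟩ := rfl
    rw [h0, MulEquiv.map_eq_one_iff, ← Subtype.coe_inj]
    constructor
    · intro h y
      have h1 : (MulAut.conj x) y = y := by
        have h2 : MulAut.conj x = 1 := h
        rw [h2]; rfl
      rw [MulAut.conj_apply] at h1
      exact mul_inv_eq_iff_eq_mul.1 h1
    · intro h
      apply MulEquiv.ext
      intro y
      show x * y * x⁻¹ = y
      rw [h y, mul_inv_cancel_right]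
  by_cases hsurj : Function.Surjective i
  · obtain ⟨r, hr, hrinj⟩ := caseSym i hker hsurj
    exact hrinj (hbij r (hr g ((hker g).2 hg))).injective
  · -- the image is cyclic, so `G` is abelian
    have hcardS : Nat.card (Equiv.Perm (Fin 3)) = 6 := by
      rw [Nat.card_eq_fintype_card, Fintype.card_perm, Fintype.card_fin]
      rfl
    have hdvd : Nat.card i.range ∣ 6 := by
      rw [← hcardS]
      exact Subgroup.card_subgroup_dvd_card i.range
    have hne : Nat.card i.range ≠ 6 := by
      intro h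
      apply hsurj
      rw [← MonoidHom.range_eq_top]
      apply Subgroup.eq_top_of_card_eq
      rw [h, hcardS]
    have hcases : Nat.card i.range ∣ 2 ∨ Nat.card i.range ∣ 3 := by
      have hle := Nat.le_of_dvd (by norm_num) hdvd
      obtain ⟨n, hn⟩ : ∃ n, n = Nat.card i.range := ⟨_, rfl⟩
      rw [← hn] at hdvd hne hle ⊢
      interval_cases n <;> omega
    haveI hcyc : IsCyclic i.range := by
      rcases hcases with h | h
      · haveI : Fact (Nat.Prime 2) := ⟨Nat.prime_two⟩
        exact isCyclic_of_card_dvd_prime h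
      · haveI : Fact (Nat.Prime 3) := ⟨Nat.prime_three⟩
        exact isCyclic_of_card_dvd_prime h
    have hcomm : ∀ x y : G, x * y = y * x := by
      refine commutative_of_cyclic_center_quotient i.rangeRestrict ?_
      intro x hx
      rw [Subgroup.mem_center_iff]
      intro y
      have h1 : i.rangeRestrict x = 1 := hx
      have h2 : i x = 1 := by
        have := congrArg Subtype.val h1
        exact this
      exact ((hker x).1 h2 y).symm
    letI : CommGroup G := { (inferInstance : Group G) with mul_comm := hcomm }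
    have hKcard : Nat.card K = 6 := by
      rw [← hcardS]
      exact Nat.card_congr e.toEquiv
    have hKcomm := caseComm g K hK hbij hKcard
    have h1 : ∀ p q : Equiv.Perm (Fin 3), p * q = q * p := by
      intro p q
      obtain ⟨a, rfl⟩ := e.surjective p
      obtain ⟨b, rfl⟩ := e.surjective q
      rw [← map_mul, hKcomm, map_mul]
    exact absurd (h1 (finRotate 3) (Equiv.swap 0 1)) (by decide)

/-- **MP_cdb8a2_al, Q1: negative answer.**  No envelope `φ : ℤ → G` of the integers has a Galois
group isomorphic to `S₃`.  In particular it is false that for every group `K` and every cardinal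
`κ` there is an envelope `φ : ℤ → G` with `|G| ≥ κ` and Galois group `K`. -/
theorem result :
    (∀ (G : Type u) [Group G] (φ : Multiplicative ℤ →* G), IsEnvelope φ →
      IsEmpty (Gal φ ≃* Equiv.Perm (Fin 3))) ∧
    ¬ (∀ (K : Type) [Group K] (κ : Cardinal.{u}), ∃ (G : Type u) (_ : Group G)
      (φ : Multiplicative ℤ →* G), IsEnvelope φ ∧ κ ≤ Cardinal.mk G ∧ Nonempty (Gal φ ≃* K)) := by
  have key : ∀ (G : Type u) [Group G] (φ : Multiplicative ℤ →* G), IsEnvelope φ →
      IsEmpty (Gal φ ≃* Equiv.Perm (Fin 3)) := by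
    intro G _ φ hφ
    refine ⟨fun e => ?_⟩
    have hgen : ∀ f : G →* G, f (φ (Multiplicative.ofAdd 1)) = φ (Multiplicative.ofAdd 1) →
        f.comp φ = φ := by
      intro f hf
      apply MonoidHom.ext_mint
      exact hf
    refine main (φ (Multiplicative.ofAdd 1)) (Gal φ) (fun f => ⟨fun h => h _, fun h x => ?_⟩)
      (fun f hf => hφ.2 f (hgen f hf)) e
    have h1 := hgen f.toMonoidHom h
    exact DFunLike.congr_fun h1 x
  refine ⟨key, fun h => ?_⟩
  obtain ⟨G, hG, φ, hφ, -, ⟨e⟩⟩ := h (Equiv.Perm (Fin 3)) 0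
  exact (key G φ hφ).false e

end Pool.Agent.Results.MP_cdb8a2_al.NoSymThree
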